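import Pool.Agent.Run7.h723.OG.Iface

/-!
# Piece DEG (oriented domination game, MP_e4b521_co)
-/

set_option autoImplicit false
set_option linter.unusedSectionVars false

namespace Run7.h220.OG

open Pool.H723.OG
open scoped Classical

section

variable {V : Type} [Fintype V] [DecidableEq V] (G : SimpleGraph V) {x y z : V}

/-- indicator of adjacency -/
noncomputable def ad (G : SimpleGraph V) (u v : V) : ℕ := if G.Adj u v then 1 else 0

theorem nb_triple (hxy : x ≠ y) (hxz : x ≠ z) (hyz : y ≠ z) (v : V) :
    nb G {x, y, z} v = ad G x v + ad G y v + ad G z v := by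
  unfold nb ad
  rw [Finset.card_filter, Finset.sum_insert, Finset.sum_insert, Finset.sum_singleton, add_assoc]
  · simpa using hyz
  · simp [hxy, hxz]

theorem t_DEG : S_DEG := by
  intro V _ _ G x y z d hxy hxz hyz hx hy hz
  -- the sum over all vertices outside
  have h1 : 3 * (lev G {x, y, z} 3).card + 2 * (lev G {x, y, z} 2).card ≤
      ∑ v, nb G {x, y, z} v := by
    have h2 : ∀ v, (if v ∈ lev G {x, y, z} 3 then 3 else 0) + (if v ∈ lev G {x, y, z} 2 then 2 else 0)
        ≤ nb G {x, y, z} v := by
      intro v
      by_cases h3 : v ∈ lev G {x, y, z} 3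
      · have h4 : v ∉ lev G {x, y, z} 2 := by
          intro h5
          unfold lev at h3 h5
          simp only [Finset.mem_filter, Finset.mem_univ, true_and] at h3 h5
          omega
        rw [if_pos h3, if_neg h4]
        unfold lev at h3
        simp only [Finset.mem_filter, Finset.mem_univ, true_and] at h3
        omega
      · rw [if_neg h3]
        by_cases h5 : v ∈ lev G {x, y, z} 2
        · rw [if_pos h5]
          unfold lev at h5
          simp only [Finset.mem_filter, Finset.mem_univ, true_and] at h5
          omega
        · rw [if_neg h5]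
          omega
    calc 3 * (lev G {x, y, z} 3).card + 2 * (lev G {x, y, z} 2).card
        = ∑ v, ((if v ∈ lev G {x, y, z} 3 then 3 else 0) +
          (if v ∈ lev G {x, y, z} 2 then 2 else 0)) := by
          rw [Finset.sum_add_distrib, ← Finset.sum_filter, ← Finset.sum_filter]
          simp [mul_comm]
      _ ≤ _ := Finset.sum_le_sum fun v _ => h2 v
  have h3 : ∑ v, nb G {x, y, z} v = dg G x + dg G y + dg G z := by
    simp only [nb_triple G hxy hxz hyz, Finset.sum_add_distrib]
    have h4 : ∀ u, ∑ v, ad G u v = dg G u := by
      intro u
      unfold ad dg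
      rw [Finset.card_filter]
      exact Finset.sum_congr rfl fun v _ => by simp only [G.adj_comm]
    rw [h4, h4, h4]
  omega

end

end Run7.h220.OG
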