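import Pool.Agent.Run7.h220.OG.DEG

/-!
# Piece TRI (oriented domination game, MP_e4b521_co)
-/

set_option autoImplicit false
set_option linter.unusedSectionVars false

namespace Run7.h220.OG

open Pool.H723.OG
open scoped Classical

theorem t_TRI : S_COST → S_TRI := by
  intro hC V _ _ G x y z t hxy hxz hyz h
  apply hC V Gᶜ {x, y, z} (3 + t)
  have hcard : ({x, y, z} : Finset V).card = 3 := Finset.card_eq_three.2 ⟨x, y, z, hxy, hxz, hyz, rfl⟩
  have key : ∀ v, v ∉ ({x, y, z} : Finset V) → nb Gᶜ {x, y, z} v + nb G {x, y, z} v = 3 := by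
    intro v hv
    rw [nb_triple G hxy hxz hyz, nb_triple Gᶜ hxy hxz hyz]
    simp only [Finset.mem_insert, Finset.mem_singleton, not_or] at hv
    have h1 : ∀ u, v ≠ u → ad Gᶜ u v + ad G u v = 1 := by
      intro u hu
      unfold ad
      by_cases h2 : G.Adj u v
      · rw [if_pos h2, if_neg]
        rw [SimpleGraph.compl_adj]
        exact fun h3 => h3.2 h2
      · rw [if_neg h2, if_pos]
        rw [SimpleGraph.compl_adj]
        exact ⟨hu.symm, h2⟩
    have := h1 x hv.1
    have := h1 y hv.2.1
    have := h1 z hv.2.2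
    omega
  have e0 : lev Gᶜ {x, y, z} 0 = lev G {x, y, z} 3 := by
    unfold lev
    ext v
    simp only [Finset.mem_filter, Finset.mem_univ, true_and]
    constructor
    · rintro ⟨h1, h2⟩
      have := key v h1
      exact ⟨h1, by omega⟩
    · rintro ⟨h1, h2⟩
      have := key v h1
      exact ⟨h1, by omega⟩
  have e1 : lev Gᶜ {x, y, z} 1 = lev G {x, y, z} 2 := by
    unfold lev
    ext v
    simp only [Finset.mem_filter, Finset.mem_univ, true_and]
    constructor
    · rintro ⟨h1, h2⟩
      have := key v h1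
      exact ⟨h1, by omega⟩
    · rintro ⟨h1, h2⟩
      have := key v h1
      exact ⟨h1, by omega⟩
  unfold cost2
  rw [e0, e1, hcard]
  omega

end Run7.h220.OG
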